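import Pool.Agent.H906.BD.P.Main

/-! # `K_X + B = f^* A` for compact Kähler klt pairs uniformised by `D × ℂ^b`

Let `D ⊆ ℂ^a` be an arbitrary bounded domain and let a group `Δ` act by biholomorphic maps, properly
discontinuously and with compact quotient, on `D × ℂ^b`. Fixed points are allowed, in any
codimension. Let `X = (D × ℂ^b) / Δ` and let `B = ∑ (1 - 1/m_i) B_i` be the branch divisor of
`q : D × ℂ^b → X`: `B_i` is the image of a divisor which is pointwise fixed by a cyclic group of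
reflections of order `m_i`. So `q^* (K_X + B)` is the canonical bundle of `D × ℂ^b`, the pair `(X, B)`
is klt, and `l (K_X + B)` is the line bundle on `X` with the factor of automorphy
`det Jac (ρ δ)(x)^(-l)`, if these factors are trivial on the stabilisers of points. We assume that
`X` is Kähler and that a subgroup of finite index of `Δ` preserves the splitting of the tangent
bundle into `T_D` and the `b` coordinate lines of `ℂ^b`. We prove that there are a contraction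
`f : X → Z` onto a compact normal complex space `Z = D / Γ`, an ample line bundle `A_l` on `Z` and
`l ≥ 1` with `l (K_X + B) = f^* A_l`. So `K_X + B = f^* A` with `A = (1/l) A_l` ample, and `Z` is
projective. -/

open Matrix
open scoped ComplexOrder

namespace Pool.Agent.Results.MP_9a2ae6_ag.BoundedDomainTimesCbPairs

/-- The space `ℂ^a × ℂ^b`. -/
abbrev Pt (a b : ℕ) := Fin a ⊕ Fin b → ℂ

/-- The component in `ℂ^a`. -/
def proj {a b : ℕ} (x : Pt a b) : Fin a → ℂ := fun i => x (Sum.inl i)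

/-- The complex manifold `D × ℂ^b`. -/
def Dom {a : ℕ} (D : Set (Fin a → ℂ)) (b : ℕ) : Set (Pt a b) := {x | proj x ∈ D}

/-- `D` is a bounded domain of `ℂ^a`. -/
structure IsBoundedDomain {a : ℕ} (D : Set (Fin a → ℂ)) : Prop where
  isOpen : IsOpen D
  connected : IsConnected D
  bounded : Bornology.IsBounded D

/-- The complex Jacobian matrix `(∂ f_k / ∂ x_i)` of `f`. -/
noncomputable def Jac {a b : ℕ} (f : Pt a b → Pt a b) (x : Pt a b) :
    Matrix (Fin a ⊕ Fin b) (Fin a ⊕ Fin b) ℂ :=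
  Matrix.of fun k i => fderiv ℂ f x (Pi.single i 1) k

/-- The group `Δ` acts on `D × ℂ^b` by holomorphic maps, properly discontinuously and with compact
quotient `X`. -/
structure IsUniform {a b : ℕ} (D : Set (Fin a → ℂ)) {Δ : Type*} [Group Δ]
    (ρ : Δ → Pt a b → Pt a b) : Prop where
  maps : ∀ δ, ∀ x ∈ Dom D b, ρ δ x ∈ Dom D b
  one : ∀ x ∈ Dom D b, ρ 1 x = x
  mul : ∀ δ ε, ∀ x ∈ Dom D b, ρ (δ * ε) x = ρ δ (ρ ε x)
  hol : ∀ δ, DifferentiableOn ℂ (ρ δ) (Dom D b)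
  properlyDiscontinuous : ∀ K ⊆ Dom D b, IsCompact K → {δ : Δ | (ρ δ '' K ∩ K).Nonempty}.Finite
  cocompact : ∃ K ⊆ Dom D b, IsCompact K ∧ ∀ x ∈ Dom D b, ∃ δ, ρ δ x ∈ K

/-- The elements of `Δ0` preserve the subbundle `T_D` of the tangent bundle of `D × ℂ^b` and each
of the `b` coordinate line subbundles of `ℂ^b`: the entries of their Jacobian matrices vanish
outside of the block of `D` and of the diagonal. -/
def PreservesSplitting {a b : ℕ} (D : Set (Fin a → ℂ)) {Δ : Type*} [Group Δ]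
    (ρ : Δ → Pt a b → Pt a b) (Δ0 : Subgroup Δ) : Prop :=
  ∀ δ ∈ Δ0, ∀ x ∈ Dom D b,
    (∀ (j : Fin b) (k : Fin a ⊕ Fin b), k ≠ Sum.inr j → Jac (ρ δ) x k (Sum.inr j) = 0) ∧
    ∀ (i : Fin a) (j : Fin b), Jac (ρ δ) x (Sum.inr j) (Sum.inl i) = 0

/-- The derivative `∂ f / ∂ x_k = (∂ f / ∂ Re x_k - i ∂ f / ∂ Im x_k) / 2`. -/
noncomputable def partialZ {a b : ℕ} (k : Fin a ⊕ Fin b) (f : Pt a b → ℂ) (x : Pt a b) : ℂ :=
  (fderiv ℝ f x (Pi.single k 1) - Complex.I * fderiv ℝ f x (Pi.single k Complex.I)) / 2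

/-- `i ∑ g_{jk} d x_j ∧ d \bar x_k` is a Kähler form on the quotient: the matrix `g` is of class
`C^1` and positive definite, the form is closed and it is invariant under `Δ`. -/
structure IsKahler {a b : ℕ} (D : Set (Fin a → ℂ)) {Δ : Type*} [Group Δ]
    (ρ : Δ → Pt a b → Pt a b)
    (g : Pt a b → Matrix (Fin a ⊕ Fin b) (Fin a ⊕ Fin b) ℂ) : Prop where
  smooth : ∀ i j, ContDiffOn ℝ 1 (fun x => g x i j) (Dom D b)
  pos : ∀ x ∈ Dom D b, (g x).PosDef
  closed : ∀ x ∈ Dom D b, ∀ i j k,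
    partialZ i (fun y => g y j k) x = partialZ j (fun y => g y i k) x
  invariant : ∀ δ, ∀ x ∈ Dom D b,
    (Jac (ρ δ) x)ᵀ * g (ρ δ x) * (Jac (ρ δ) x).map star = g x

/-- The projection `D × ℂ^b → D` induces a contraction `f : X → Z`: the group `Δ` acts by
holomorphic maps `σ δ` on `D`, compatibly with the projection, the group `Γ` of the transformations
`σ δ` of `D` acts properly discontinuously (only finitely many different ones move a point of a
given compact set into this set) and with compact quotient `Z = D / Γ`, a compact normal complex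
space, and `f_* O_X = O_Z`: every `Δ`-invariant holomorphic function on the preimage of a `Γ`-stable
open subset `U` of `D` comes from a `Γ`-invariant holomorphic function on `U`. -/
structure IsContraction {a b : ℕ} (D : Set (Fin a → ℂ)) {Δ : Type*} [Group Δ]
    (ρ : Δ → Pt a b → Pt a b) (σ : Δ → (Fin a → ℂ) → (Fin a → ℂ)) : Prop where
  maps : ∀ δ, ∀ z ∈ D, σ δ z ∈ D
  one : ∀ z ∈ D, σ 1 z = z
  mul : ∀ δ ε, ∀ z ∈ D, σ (δ * ε) z = σ δ (σ ε z)
  hol : ∀ δ, DifferentiableOn ℂ (σ δ) D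
  equivariant : ∀ δ, ∀ x ∈ Dom D b, proj (ρ δ x) = σ δ (proj x)
  properlyDiscontinuous : ∀ K ⊆ D, IsCompact K → ∃ T : Finset Δ, ∀ δ, (∃ z ∈ K, σ δ z ∈ K) →
    ∃ t ∈ T, ∀ z ∈ D, σ δ z = σ t z
  cocompact : ∃ K ⊆ D, IsCompact K ∧ ∀ z ∈ D, ∃ δ, σ δ z ∈ K
  functions : ∀ U ⊆ D, IsOpen U → (∀ δ, ∀ z ∈ U, σ δ z ∈ U) →
    ∀ G : Pt a b → ℂ, DifferentiableOn ℂ G {x | proj x ∈ U} →
      (∀ δ x, proj x ∈ U → G (ρ δ x) = G x) →
      ∃ φ : (Fin a → ℂ) → ℂ, DifferentiableOn ℂ φ U ∧ (∀ δ, ∀ z ∈ U, φ (σ δ z) = φ z) ∧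
        ∀ x, proj x ∈ U → G x = φ (proj x)

/-- The functions `e δ` are (the inverse of) a factor of automorphy on `D` which is trivial on the
stabilisers of points: they define a line bundle `A_l` on `Z = D / Γ`. -/
structure IsLineBundle {a : ℕ} (D : Set (Fin a → ℂ)) {Δ : Type*} [Group Δ]
    (σ : Δ → (Fin a → ℂ) → (Fin a → ℂ)) (e : Δ → (Fin a → ℂ) → ℂ) : Prop where
  hol : ∀ δ, DifferentiableOn ℂ (e δ) D
  mul : ∀ δ ε, ∀ z ∈ D, e (δ * ε) z = e δ (σ ε z) * e ε z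
  stabiliser : ∀ δ, ∀ z ∈ D, σ δ z = z → e δ z = 1

/-- `φ` is a section of the `k`-th power of the line bundle on `Z` given by `e`. -/
def IsSection {a : ℕ} (D : Set (Fin a → ℂ)) {Δ : Type*} [Group Δ]
    (σ : Δ → (Fin a → ℂ) → (Fin a → ℂ)) (e : Δ → (Fin a → ℂ) → ℂ) (k : ℕ)
    (φ : (Fin a → ℂ) → ℂ) : Prop :=
  DifferentiableOn ℂ φ D ∧ ∀ δ, ∀ z ∈ D, φ (σ δ z) * e δ z ^ k = φ z

/-- The line bundle on `Z` given by `e` is globally generated, and its powers separate the points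
of `Z`. So it is ample: the closed analytic subsets of `Z × Z` of the pairs of points which are not
separated by the sections of the `k`-th power decrease when `k` is replaced by a multiple, their
intersection is the diagonal, and `Z` is compact, so one of them is the diagonal; the sections of
this power define an injective, hence finite holomorphic map from `Z` to a projective space. -/
structure IsAmple {a : ℕ} (D : Set (Fin a → ℂ)) {Δ : Type*} [Group Δ]
    (σ : Δ → (Fin a → ℂ) → (Fin a → ℂ)) (e : Δ → (Fin a → ℂ) → ℂ) : Prop where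
  generated : ∀ z ∈ D, ∃ φ, IsSection D σ e 1 φ ∧ φ z ≠ 0
  separating : ∀ z ∈ D, ∀ z' ∈ D, (∀ δ, σ δ z ≠ z') →
    ∃ k, 1 ≤ k ∧ ∃ φ, IsSection D σ e k φ ∧ φ z = 0 ∧ φ z' ≠ 0

/-- **Abundance with the contraction.** Let `D` be a bounded domain of `ℂ^a`, let the compact
quotient `X` of `D × ℂ^b` by `Δ` be Kähler, and let a subgroup of finite index of `Δ` preserve `T_D`
and the coordinate lines of `ℂ^b`. Let `B` be the branch divisor. There are a contraction
`f : X → Z = D / Γ`, an integer `l ≥ 1` and an ample line bundle `A_l` on `Z` with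
`l (K_X + B) = f^* A_l`. -/
theorem result {a b : ℕ} {D : Set (Fin a → ℂ)} (hD : IsBoundedDomain D) {Δ : Type*} [Group Δ]
    (ρ : Δ → Pt a b → Pt a b) (hρ : IsUniform D ρ) (Δ0 : Subgroup Δ) (hfin : Δ0.FiniteIndex)
    (hsplit : PreservesSplitting D ρ Δ0)
    (g : Pt a b → Matrix (Fin a ⊕ Fin b) (Fin a ⊕ Fin b) ℂ) (hg : IsKahler D ρ g) :
    ∃ (σ : Δ → (Fin a → ℂ) → (Fin a → ℂ)) (l : ℕ) (e : Δ → (Fin a → ℂ) → ℂ), 1 ≤ l ∧
      IsContraction D ρ σ ∧ IsLineBundle D σ e ∧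
      (∀ δ, ∀ x ∈ Dom D b, (Jac (ρ δ) x).det ^ l = e δ (proj x)) ∧
      IsAmple D σ e := by
  obtain ⟨R, hR⟩ := hD.bounded.exists_norm_le
  have h1 : H906.BD.HolAct (H906.BD.Tot D (Fin b)) ρ := ⟨hρ.maps, hρ.one, hρ.mul, hρ.hol⟩
  have h2 : H906.BD.Kahler (H906.BD.Tot D (Fin b)) g := ⟨hg.smooth, hg.pos, hg.closed⟩
  have h3 : H906.BD.InvForm (H906.BD.Tot D (Fin b)) ρ g := hg.invariant
  obtain ⟨σ, l, e, hl, hσ, hρσ, hpd, hcc, hfun, he1, he2, he3, hJ, hgen, hsep⟩ :=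
    H906.BD.S.contraction_thm hD.isOpen hD.connected.isPreconnected
      hD.connected.nonempty hR h1 hρ.properlyDiscontinuous hρ.cocompact hfin
      (fun δ hδ x hx j i => (hsplit δ hδ x hx).2 i j)
      (fun δ hδ x hx j j' hjj =>
        (hsplit δ hδ x hx).1 j' (Sum.inr j) fun h => hjj (Sum.inr_injective h)) h2 h3
  refine ⟨σ, l, e, hl, ⟨hσ.maps, hσ.one, hσ.mul, hσ.hol, hρσ, hpd, hcc, ?_⟩,
    ⟨he1, he2, he3⟩, hJ, ⟨fun z hz => ?_, fun z hz z' hz' hzz => ?_⟩⟩
  · intro U hUD hU hst G hG hGi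
    obtain ⟨φ, hφ, hGφ⟩ := hfun U hUD hU G hG hGi
    refine ⟨φ, hφ, fun δ z hz => ?_, hGφ⟩
    have hx : proj (Sum.elim z 0 : Pt a b) ∈ U := hz
    have h4 := hGφ _ hx
    have h5 := hρσ δ (Sum.elim z 0 : Pt a b) (hUD hz)
    have h7 : proj (ρ δ (Sum.elim z 0 : Pt a b)) ∈ U := by
      show H906.BD.prA _ ∈ U
      rw [h5]
      exact hst δ z hz
    have h8 := hGφ _ h7
    rw [hGi δ _ hx, h4] at h8
    have h9 : H906.BD.prA (ρ δ (Sum.elim z 0 : Pt a b)) = σ δ z := h5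
    rw [h9] at h8
    exact h8.symm
  · obtain ⟨φ, hφ1, hφ2, hφ3⟩ := hgen z hz
    exact ⟨φ, ⟨hφ1, fun δ y hy => by rw [pow_one]; exact hφ2 δ y hy⟩, hφ3⟩
  · obtain ⟨k, hk, φ, hφ1, hφ2, hφ3, hφ4⟩ := hsep z hz z' hz' hzz
    exact ⟨k, hk, φ, ⟨hφ1, hφ2⟩, hφ3, hφ4⟩

end Pool.Agent.Results.MP_9a2ae6_ag.BoundedDomainTimesCbPairs
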