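import Pool.Agent.H896.CT.Cur2
import Pool.Agent.H896.CT.Dec

/-!
# Abundance in the line bundle form for Kähler klt pairs on quotients of `ℂ^n × P^{r_1} × ... × P^{r_c}`

Let `V = ℂ^n`, `F = P^{r_1} × ... × P^{r_c}`, and let `Γ` be any group of holomorphic isometries of `V × F`
which acts properly discontinuously with a compact quotient `X = (V × F) / Γ`. So `X` is a normal compact
Kähler space, usually not projective: the group may have fixed points, permute the factors of `F` and
contain reflections, and it may act on `F` by arbitrary projectively unitary representations of its lattice.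
Let `(X, B)` be a klt pair, `B = ∑ d_i D_i`, with real coefficients `d_i > 0` and effective Cartier divisors
`D_i`.

* `K_X + B` is pseudo-effective in the sense of Kähler geometry, that is, its class contains a closed
  positive current, if and only if it is nef.
* If `K_X + B` is nef then there is a contraction `f : X → Z` and an ample real divisor `A` on `Z` with
  `K_X + B = f^* A`. Moreover `Z = (V' × F') / Γ'` is again a compact quotient of a vector space times a
  product of projective spaces by a discrete group of holomorphic isometries, `f` is induced by a linear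
  projection `V → V'` and the projection `F → F'` onto some of the factors, and the fibres of `f` are the
  images of the translates of `(kernel) × F''`.

So Q1 holds for these pairs, in all dimensions. The steps:

* the nef cone of `X` is rational polyhedral on the span of `K_X` and the `D_i`, so that `K_X + B` is a
  positive combination of integral classes `L_k` in the interior of the same face (`CT/Dec.lean`), and the
  `L_k` are semiample by the rigidity of klt pairs with nonnegative degrees (`IR/Real.lean`);
* the pure translations in `Γ`, which act trivially on `F`, along the null space `U` of the form of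
  `K_X + B` span `U`: the characters by which the lattice acts on the coordinates of `F` are roots of unity
  on `U` (`CT/Pure.lean`). So the group `Γ'` induced on `V' × F'`, `V' = V / U`, is discrete (`CT/Quo.lean`);
* the sections of `L_k ^ M` are constant along `U` and the factors of degree zero, so that the factor of
  automorphy descends to `Γ'`, with trivial stabilisers at the fixed points of `Γ'`: this is the ample line
  bundle `A_k` (`CT/Bun.lean`);
* psh functions with logarithmic poles do not decay along affine lines of `V` and of the affine cone over
  `F` (`CT/Cur.lean`); the other direction uses the circle averages of `log |z + t y|²` (`CT/Circ.lean`).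

The definitions are in `Pool.Agent.H896.CT.Stmt`, `Pool.Agent.H896.IR.Stmt` and `Pool.Agent.H896.IQ.Stmt`,
and `Co`, `IsPt`, `mulBy`, `Trans`, `onV`, `onZ`, `jac`, `same`, `lin`, `IsHomog` and `IsEffective` in
`Pool.Agent.T2H08.FQ.Stmt` of the library; `IsHermitian` is defined in `Pool.Agent.W594.SYZ.Defs2` and
`IsNefForm` in `Pool.Agent.W594.SYZ.TQDefs`.
-/

set_option autoImplicit false

namespace Pool.Agent.Results.MP_9a2ae6_ag.IsometryQuotientContractions

open Pool.Agent.T2H08.FB (Co Trans)
open Pool.Agent.H896.IG

/-- Let `X = (V × F) / Γ` be a compact quotient of `V × F`, `V = ℂ^n`, `F = P^{r 0} × ... × P^{r (c - 1)}`, by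
a discrete group of holomorphic isometries, let the entire function `ρ` on `V` and the polynomial `σ`
define the ramification divisor of `V × F → X`, let `K = O_X (m K_X)`, `m ≥ 1`, and let the `D i`, given by
the sections `β i`, be effective Cartier divisors. For real numbers `d i > 0` let `(X, B)`,
`B = ∑ d i D_i`, be klt; the class of `K_X + B` is the class of `(1 / m) K + ∑ d i D_i`.

(1) The class of `K_X + B` contains a closed positive current if and only if it is nef.

(2) If `K_X + B` is nef then there are a contraction `f : X → Z` onto a normal compact space `Z` (again a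
quotient of a vector space times a product of projective spaces by a discrete group of isometries),
positive real numbers `t_k`, line bundles `L_k = K ^ a ⊗ D_0 ^ b_0 ⊗ ...` and ample line bundles `A_k` on `Z`
with `K_X + B = ∑ t_k L_k` and `(L_k) ^ M_k = f^* A_k`, that is, `K_X + B = f^* A` for the ample real divisor
`A = ∑ (t_k / M_k) A_k`. -/
theorem result {n c : ℕ} {r : Fin c → ℕ} (Γ : Subgroup (Trans n r)) (hΓ : IsIsometryGroup Γ)
    (ρ : (Fin n → ℂ) → ℂ) (σ : MvPolynomial (Co r) ℂ) (l : Fin c → ℕ)
    (hρ : IsRamification Γ ρ σ l) (m : ℕ) (hm : 1 ≤ m) (K : LineBundle Γ)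
    (hK : IsLogPluricanonical K m ρ σ l (fun _ => 1) (fun _ => 0))
    (HK : (Fin n → ℂ) → (Fin n → ℂ) → ℂ) (hHK : K.IsChernForm HK) {N : ℕ}
    (D : Fin N → LineBundle Γ) (β : Fin N → (Fin n → ℂ) → MvPolynomial (Co r) ℂ)
    (κ : Fin N → Fin c → ℕ) (hβ : ∀ i, IsCartier (D i) (β i) (κ i))
    (HD : Fin N → (Fin n → ℂ) → (Fin n → ℂ) → ℂ) (hHD : ∀ i, (D i).IsChernForm (HD i))
    (d : Fin N → ℝ) (hd : ∀ i, 0 < d i) (hklt : IsKltReal ρ σ d β) :
    (HasPositiveCurrent Γ (realClass K HK D HD (1 / m) d) ↔
      IsNefClass (realClass K HK D HD (1 / m) d)) ∧
    (IsNefClass (realClass K HK D HD (1 / m) d) → IsContractionForm K D (1 / m) d) :=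
  ⟨current_iff hΓ (cls_herm hHK.1 (fun i => (hHD i).1) _ _),
    contraction hΓ hρ hm hK hHK hβ hHD hd hklt⟩

end Pool.Agent.Results.MP_9a2ae6_ag.IsometryQuotientContractions
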